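import Pool.Agent.W610.HY.Stm

set_option autoImplicit false

namespace Pool.Agent.W174.HY.AB

open MeasureTheory Set Metric Filter Topology
open Pool.Agent.W610.HY

section

variable {𝒜 : Type} [NormedRing 𝒜] [NormedAlgebra ℂ 𝒜]

theorem res_mul (a : 𝒜) (z x : ℂ) (hz : z ∈ resolventSet ℂ a) (hx : x ∈ resolventSet ℂ a)
    (hne : x - z ≠ 0) :
    resolvent a z * resolvent a x = (x - z)⁻¹ • (resolvent a z - resolvent a x) := by
  have h1 : resolvent a z * (algebraMap ℂ 𝒜 z - a) = 1 := Ring.inverse_mul_cancel _ hz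
  have h2 : (algebraMap ℂ 𝒜 x - a) * resolvent a x = 1 := Ring.mul_inverse_cancel _ hx
  have h3 : resolvent a z - resolvent a x = (x - z) • (resolvent a z * resolvent a x) := by
    have e1 : resolvent a z = resolvent a z * ((algebraMap ℂ 𝒜 x - a) * resolvent a x) := by
      rw [h2, mul_one]
    have e2 : resolvent a x = (resolvent a z * (algebraMap ℂ 𝒜 z - a)) * resolvent a x := by
      rw [h1, one_mul]
    have e3 : (x - z) • (resolvent a z * resolvent a x) =
        resolvent a z * ((algebraMap ℂ 𝒜 x - a) * resolvent a x) -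
        (resolvent a z * (algebraMap ℂ 𝒜 z - a)) * resolvent a x := by
      rw [← mul_assoc, ← sub_mul, ← mul_sub]
      have : (algebraMap ℂ 𝒜 x - a) - (algebraMap ℂ 𝒜 z - a) = algebraMap ℂ 𝒜 (x - z) := by
        rw [map_sub]; abel
      rw [this, ← Algebra.commutes, mul_assoc, ← Algebra.smul_def]
    rw [e3, ← e1, ← e2]
  rw [h3, smul_smul, inv_mul_cancel₀ hne, one_smul]

theorem norm_cm (c : ℂ) (r θ : ℝ) (hr : 0 < r) : ‖circleMap c r θ - c‖ = r := by
  rw [circleMap_sub_center, norm_circleMap_zero, abs_of_pos hr]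

theorem norm_u (θ : ℝ) : ‖circleMap 0 1 θ‖ = 1 := by
  rw [norm_circleMap_zero, abs_one]

/-- the measure -/
noncomputable abbrev mu : Measure ℝ := volume.restrict (Ioc (0:ℝ) (2 * Real.pi))

theorem intv {E : Type} [NormedAddCommGroup E] [NormedSpace ℝ E] (f : ℝ → E) :
    (∫ θ in (0:ℝ)..(2 * Real.pi), f θ) = ∫ θ, f θ ∂mu :=
  intervalIntegral.integral_of_le (by positivity)

instance : IsFiniteMeasure mu := by
  unfold mu
  infer_instance

variable [CompleteSpace 𝒜]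

theorem F_int (hM : MEAS) (a : 𝒜) (c : ℂ) (r : ℝ) (h : ℝ → ℂ) (hg : Good a c r h) :
    Integrable (fun θ => (h θ * circleMap 0 1 θ) • resolvent a (circleMap c r θ)) mu := by
  have hm : AEStronglyMeasurable
      (fun θ => (h θ * circleMap 0 1 θ) • resolvent a (circleMap c r θ)) mu := by
    refine StronglyMeasurable.aestronglyMeasurable ?_
    refine StronglyMeasurable.smul ?_ ?_
    · exact (hg.meas.mul (continuous_circleMap 0 1).measurable).stronglyMeasurable
    · exact (hM 𝒜 a).comp_measurable (continuous_circleMap c r).measurable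
  refine Integrable.mono' (g := fun _ => (1:ℝ)) (integrable_const _) hm ?_
  filter_upwards [hg.bound] with θ hθ
  rw [norm_smul, norm_mul, norm_u, mul_one]
  exact hθ

end

theorem main (hM : MEAS) : Pool.Agent.W610.HY.AB := by
  intro 𝒜 _ _ _ a c₁ c₂ r₁ r₂ h₁ h₂ g₁ g₂ hr
  have hd : ∀ θ φ : ℝ, ‖c₁ - c₂‖ - r₁ - r₂ ≤ ‖circleMap c₂ r₂ φ - circleMap c₁ r₁ θ‖ := by
    intro θ φ
    have e1 := norm_cm c₁ r₁ θ g₁.pos
    have e2 := norm_cm c₂ r₂ φ g₂.pos
    have e3 : c₁ - c₂ = -(circleMap c₁ r₁ θ - c₁) - (circleMap c₂ r₂ φ - circleMap c₁ r₁ θ) +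
        (circleMap c₂ r₂ φ - c₂) := by ring
    have e4 : ‖c₁ - c₂‖ ≤ ‖circleMap c₁ r₁ θ - c₁‖ + ‖circleMap c₂ r₂ φ - circleMap c₁ r₁ θ‖ +
        ‖circleMap c₂ r₂ φ - c₂‖ := by
      rw [e3]
      refine (norm_add_le _ _).trans ?_
      refine add_le_add ((norm_sub_le _ _).trans ?_) le_rfl
      rw [norm_neg]
    rw [e1, e2] at e4
    linarith
  have hdpos : 0 < ‖c₁ - c₂‖ - r₁ - r₂ := by linarith
  have hne : ∀ θ φ : ℝ, circleMap c₂ r₂ φ - circleMap c₁ r₁ θ ≠ 0 := by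
    intro θ φ h
    have := hd θ φ
    rw [h, norm_zero] at this
    linarith
  have w1 : ∀ θ : ℝ, r₂ < ‖circleMap c₁ r₁ θ - c₂‖ := by
    intro θ
    have e1 := norm_cm c₁ r₁ θ g₁.pos
    have e2 : ‖c₁ - c₂‖ ≤ ‖circleMap c₁ r₁ θ - c₁‖ + ‖circleMap c₁ r₁ θ - c₂‖ := by
      have : c₁ - c₂ = -(circleMap c₁ r₁ θ - c₁) + (circleMap c₁ r₁ θ - c₂) := by ring
      rw [this]
      refine (norm_add_le _ _).trans ?_
      rw [norm_neg]
    linarith
  have w2 : ∀ φ : ℝ, r₁ < ‖circleMap c₂ r₂ φ - c₁‖ := by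
    intro φ
    have e1 := norm_cm c₂ r₂ φ g₂.pos
    have e2 : ‖c₁ - c₂‖ ≤ ‖circleMap c₂ r₂ φ - c₁‖ + ‖circleMap c₂ r₂ φ - c₂‖ := by
      have : c₁ - c₂ = -(circleMap c₂ r₂ φ - c₁) + (circleMap c₂ r₂ φ - c₂) := by ring
      rw [this]
      refine (norm_add_le _ _).trans ?_
      rw [norm_neg]
    linarith
  -- the two functions
  set F1 : ℝ → 𝒜 := fun θ => (h₁ θ * circleMap 0 1 θ) • resolvent a (circleMap c₁ r₁ θ) with hF1
  set F2 : ℝ → 𝒜 := fun θ => (h₂ θ * circleMap 0 1 θ) • resolvent a (circleMap c₂ r₂ θ) with hF2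
  have i1 : Integrable F1 mu := F_int hM a c₁ r₁ h₁ g₁
  have i2 : Integrable F2 mu := F_int hM a c₂ r₂ h₂ g₂
  have a1 : AA a c₁ r₁ h₁ = ∫ θ, F1 θ ∂mu := intv _
  have a2 : AA a c₂ r₂ h₂ = ∫ φ, F2 φ ∂mu := intv _
  -- scalar kernel
  set k : ℝ → ℝ → ℂ := fun θ φ =>
    h₁ θ * circleMap 0 1 θ / (circleMap c₂ r₂ φ - circleMap c₁ r₁ θ) with hk
  set G : ℝ → ℝ → 𝒜 := fun θ φ => k θ φ • F2 φ with hG
  have kb : ∀ᵐ θ ∂mu, ∀ φ, ‖k θ φ‖ ≤ (‖c₁ - c₂‖ - r₁ - r₂)⁻¹ := by
    filter_upwards [g₁.le_one] with θ hθ φ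
    simp only [hk, norm_div, norm_mul, norm_u, mul_one]
    rw [div_eq_mul_inv]
    calc ‖h₁ θ‖ * ‖circleMap c₂ r₂ φ - circleMap c₁ r₁ θ‖⁻¹
        ≤ 1 * (‖c₁ - c₂‖ - r₁ - r₂)⁻¹ := by
          apply mul_le_mul hθ (inv_anti₀ hdpos (hd θ φ)) (by positivity) (by norm_num)
      _ = _ := one_mul _
  have F2b : ∀ᵐ φ ∂mu, ‖F2 φ‖ ≤ 1 := by
    filter_upwards [g₂.bound] with φ hφ
    simp only [hF2, norm_smul, norm_mul, norm_u, mul_one]
    exact hφ
  have km : Measurable (fun p : ℝ × ℝ => k p.1 p.2) := by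
    have m1 : Measurable (fun p : ℝ × ℝ => h₁ p.1 * circleMap 0 1 p.1) :=
      (g₁.meas.comp measurable_fst).mul ((continuous_circleMap 0 1).measurable.comp measurable_fst)
    have m2 : Measurable (fun p : ℝ × ℝ => circleMap c₂ r₂ p.2 - circleMap c₁ r₁ p.1) :=
      ((continuous_circleMap c₂ r₂).measurable.comp measurable_snd).sub
        ((continuous_circleMap c₁ r₁).measurable.comp measurable_fst)
    exact m1.div m2
  have F2m : StronglyMeasurable F2 := by
    refine StronglyMeasurable.smul ?_ ?_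
    · exact (g₂.meas.mul (continuous_circleMap 0 1).measurable).stronglyMeasurable
    · exact (hM 𝒜 a).comp_measurable (continuous_circleMap c₂ r₂).measurable
  have iG : Integrable (Function.uncurry G) (mu.prod mu) := by
    have hm : AEStronglyMeasurable (Function.uncurry G) (mu.prod mu) := by
      refine StronglyMeasurable.aestronglyMeasurable ?_
      refine StronglyMeasurable.smul ?_ ?_
      · exact km.stronglyMeasurable
      · exact F2m.comp_measurable measurable_snd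
    refine Integrable.mono' (g := fun _ => (‖c₁ - c₂‖ - r₁ - r₂)⁻¹) (integrable_const _) hm ?_
    have e1 := (Measure.quasiMeasurePreserving_fst (μ := mu) (ν := mu)).ae kb
    have e2 := (Measure.quasiMeasurePreserving_snd (μ := mu) (ν := mu)).ae F2b
    filter_upwards [e1, e2] with p hp1 hp2
    change ‖k p.1 p.2 • F2 p.2‖ ≤ _
    rw [norm_smul]
    calc ‖k p.1 p.2‖ * ‖F2 p.2‖ ≤ (‖c₁ - c₂‖ - r₁ - r₂)⁻¹ * 1 := by
          apply mul_le_mul (hp1 p.2) hp2 (norm_nonneg _) (by positivity)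
      _ = _ := mul_one _
  -- inner integral over θ vanishes
  have in1 : ∀ φ, (∫ θ, G θ φ ∂mu) = 0 := by
    intro φ
    have e : (∫ θ, G θ φ ∂mu) = (∫ θ, k θ φ ∂mu) • F2 φ := integral_smul_const _ _
    rw [e]
    have v := g₁.van (circleMap c₂ r₂ φ) (w2 φ)
    rw [intv] at v
    have : (∫ θ, k θ φ ∂mu) = -(∫ θ, h₁ θ * (circleMap 0 1 θ /
        (circleMap c₁ r₁ θ - circleMap c₂ r₂ φ)) ∂mu) := by
      rw [← integral_neg]
      refine integral_congr_ae (Eventually.of_forall fun θ => ?_)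
      simp only [hk]
      rw [← neg_sub (circleMap c₂ r₂ φ) (circleMap c₁ r₁ θ), div_neg, mul_neg, neg_neg,
        mul_div_assoc]
    rw [this, v, neg_zero, zero_smul]
  -- product for fixed θ
  have in2 : ∀ᵐ θ ∂mu, (∫ φ, F1 θ * F2 φ ∂mu) = -(∫ φ, G θ φ ∂mu) := by
    filter_upwards [g₁.res, kb] with θ hθ hkb
    have kmθ : Measurable (fun φ => k θ φ) := km.comp (measurable_const.prodMk measurable_id)
    -- integrable pieces
    have iGθ : Integrable (fun φ => G θ φ) mu := by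
      refine Integrable.mono' (g := fun _ => (‖c₁ - c₂‖ - r₁ - r₂)⁻¹) (integrable_const _)
        (kmθ.stronglyMeasurable.smul F2m).aestronglyMeasurable ?_
      filter_upwards [F2b] with φ hφ
      change ‖k θ φ • F2 φ‖ ≤ _
      rw [norm_smul]
      calc ‖k θ φ‖ * ‖F2 φ‖ ≤ (‖c₁ - c₂‖ - r₁ - r₂)⁻¹ * 1 := by
            apply mul_le_mul (hkb φ) hφ (norm_nonneg _) (by positivity)
        _ = _ := mul_one _
    have iKθ : Integrable (fun φ => (k θ φ * (h₂ φ * circleMap 0 1 φ)) •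
        resolvent a (circleMap c₁ r₁ θ)) mu := by
      have : Integrable (fun φ => k θ φ * (h₂ φ * circleMap 0 1 φ)) mu := by
        refine Integrable.mono' (g := fun _ => (‖c₁ - c₂‖ - r₁ - r₂)⁻¹) (integrable_const _)
          (kmθ.mul (g₂.meas.mul (continuous_circleMap 0 1).measurable)).aestronglyMeasurable ?_
        filter_upwards [g₂.le_one] with φ hφ
        rw [norm_mul, norm_mul, norm_u, mul_one]
        calc ‖k θ φ‖ * ‖h₂ φ‖ ≤ (‖c₁ - c₂‖ - r₁ - r₂)⁻¹ * 1 := by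
              apply mul_le_mul (hkb φ) hφ (norm_nonneg _) (by positivity)
          _ = _ := mul_one _
      exact this.smul_const _
    have e1 : (∫ φ, F1 θ * F2 φ ∂mu) = ∫ φ, ((k θ φ * (h₂ φ * circleMap 0 1 φ)) •
        resolvent a (circleMap c₁ r₁ θ) - G θ φ) ∂mu := by
      refine integral_congr_ae ?_
      filter_upwards [g₂.res] with φ hφ
      simp only [hF1, hG, hF2, hk]
      rw [smul_mul_smul_comm, res_mul a _ _ hθ hφ (hne θ φ), smul_smul, smul_smul, smul_sub]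
      congr 2
      · field_simp
      · field_simp
    rw [e1, integral_sub iKθ iGθ]
    have e2 : (∫ φ, (k θ φ * (h₂ φ * circleMap 0 1 φ)) • resolvent a (circleMap c₁ r₁ θ) ∂mu)
        = 0 := by
      rw [integral_smul_const]
      have v := g₂.van (circleMap c₁ r₁ θ) (w1 θ)
      rw [intv] at v
      have : (∫ φ, k θ φ * (h₂ φ * circleMap 0 1 φ) ∂mu) = (h₁ θ * circleMap 0 1 θ) *
          (∫ φ, h₂ φ * (circleMap 0 1 φ / (circleMap c₂ r₂ φ - circleMap c₁ r₁ θ)) ∂mu) := by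
        rw [← integral_const_mul]
        refine integral_congr_ae (Eventually.of_forall fun φ => ?_)
        simp only [hk]
        ring
      rw [this, v, mul_zero, zero_smul]
    rw [e2, zero_sub]
  -- assembly
  have p1 : AA a c₁ r₁ h₁ * AA a c₂ r₂ h₂ = ∫ θ, F1 θ * AA a c₂ r₂ h₂ ∂mu := by
    have := ContinuousLinearMap.integral_comp_comm
      ((ContinuousLinearMap.mul ℂ 𝒜).flip (AA a c₂ r₂ h₂)) i1
    rw [a1]
    exact this.symm
  have p2 : ∀ θ, F1 θ * AA a c₂ r₂ h₂ = ∫ φ, F1 θ * F2 φ ∂mu := by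
    intro θ
    have := ContinuousLinearMap.integral_comp_comm
      (ContinuousLinearMap.mul ℂ 𝒜 (F1 θ)) i2
    rw [a2]
    exact this.symm
  rw [p1]
  have p3 : (∫ θ, F1 θ * AA a c₂ r₂ h₂ ∂mu) = ∫ θ, -(∫ φ, G θ φ ∂mu) ∂mu := by
    refine integral_congr_ae ?_
    filter_upwards [in2] with θ hθ
    rw [p2 θ, hθ]
  rw [p3, integral_neg, integral_integral_swap iG]
  simp only [in1, integral_zero, neg_zero]

end Pool.Agent.W174.HY.AB
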